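import Pool.Agent.Lib.TC.Wu

/-!
# Invariant topological complexity and linear spheres

For every prime `p` and every smooth action of the cyclic group `C_p` on the sphere `S^n` whose
fixed point set is nonempty and path connected, `S^n` is `C_p`-homotopy equivalent to a linear
`C_p`-sphere if and only if the (reduced) invariant topological complexity of `S^n` is at most `2`.

Course of the proof. (1) Easy direction: linear spheres have invariant topological complexity at
most `2`, which is invariant under equivariant homotopy equivalence. (2) The fixed point set `F`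
is a closed topological manifold (linearisation of a smooth action at a fixed point), a euclidean
neighbourhood retract, and, by Smith theory, has the homology of a sphere modulo `p`.
(3) The ordinary topological complexity of `F` is at most `2`. (4) `F` is simply connected in
dimension at least `3`, and in low dimension the complement of a ball in `F` is: the augmentation
ideal of the group algebra of the fundamental group is projective over every field, by a duality
argument with local coefficients on the universal covering; for a finitely generated group without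
homomorphisms onto `C_p` this implies that it is trivial. (5) The homology of `F` vanishes below
the dimension: zero divisors for the topological complexity, Steenrod squares and Bockstein
operations on cubical cochains, and a weight argument for the suspension of `F` in the
exceptional case; in dimension five the square `Sq^2` vanishes by an argument with the
complex structure of the normal bundle. (6) Hence `F` is a homotopy sphere, and an equivariant
map to a linear sphere which is a homotopy equivalence on the fixed point sets can be modified
on free orbits to an equivariant homotopy equivalence.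
-/

namespace Pool.Agent.Results.MP_3a3ae1_gt.LinearIffInvTC

open Metric Set
open scoped Manifold ContDiff unitInterval

/-- The cyclic group of order `p`, written multiplicatively. -/
abbrev Cp (p : ℕ) : Type := Multiplicative (ZMod p)

/-- The standard sphere `S^n`, the unit sphere of `ℝ^(n+1)`. -/
abbrev Sph (n : ℕ) : Type := sphere (0 : EuclideanSpace ℝ (Fin (n + 1))) 1

/-- The action of `G` on `S^n` is smooth: every element acts by a map of class `C^∞`. -/
def SmoothAction (G : Type) [Group G] (n : ℕ) [MulAction G (Sph n)] : Prop :=
  ∀ g : G, ContMDiff (𝓡 n) (𝓡 n) ∞ (fun x : Sph n => g • x)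

/-- The fixed point set `X^G`. -/
def fixedSet (G X : Type) [Group G] [MulAction G X] : Set X := {x | ∀ g : G, g • x = x}

/-- `TCle G X k`: the product `X × X` is covered by `k + 1` open `(G × G)`-invariant sets over
each of which there is a continuous `(G × G)`-equivariant map `(x, y) ↦ (γ, δ)` to pairs of paths
such that `γ(1)` and `δ(0)` lie in the same orbit, `γ(0) = x` and `δ(1) = y`. -/
def TCle (G X : Type) [Group G] [TopologicalSpace X] [MulAction G X] (k : ℕ) : Prop :=
  ∃ U : Fin (k + 1) → Set (X × X),
    (∀ i, IsOpen (U i)) ∧
    (∀ i (g h : G) (x y : X), (x, y) ∈ U i → (g • x, h • y) ∈ U i) ∧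
    (⋃ i, U i) = univ ∧
    ∀ i, ∃ s : X × X → C(I, X) × C(I, X), ContinuousOn s (U i) ∧
      ∀ x y, (x, y) ∈ U i →
        (∃ g : G, g • (s (x, y)).1 1 = (s (x, y)).2 0) ∧
        (s (x, y)).1 0 = x ∧ (s (x, y)).2 1 = y ∧
        ∀ (g h : G) (t : I), (s (g • x, h • y)).1 t = g • (s (x, y)).1 t ∧
          (s (g • x, h • y)).2 t = h • (s (x, y)).2 t

/-- The invariant topological complexity `TC^G(X)` (reduced normalisation): the least `k` with
`TCle G X k`, and `∞` if there is none. -/
noncomputable def ITC (G X : Type) [Group G] [TopologicalSpace X] [MulAction G X] : ℕ∞ :=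
  ⨅ (k : ℕ) (_ : TCle G X k), (k : ℕ∞)

/-- `f` is `G`-equivariant. -/
def Equi (G : Type) {X Y : Type} [Group G] [TopologicalSpace X] [TopologicalSpace Y]
    [MulAction G X] [MulAction G Y] (f : C(X, Y)) : Prop :=
  ∀ (g : G) (x : X), f (g • x) = g • f x

/-- `f₀` and `f₁` are `G`-homotopic: there is a homotopy through equivariant maps. -/
def GHomotopic (G : Type) {X Y : Type} [Group G] [TopologicalSpace X] [TopologicalSpace Y]
    [MulAction G X] [MulAction G Y] (f₀ f₁ : C(X, Y)) : Prop :=
  ∃ H : C(I × X, Y), (∀ x, H (0, x) = f₀ x) ∧ (∀ x, H (1, x) = f₁ x) ∧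
    ∀ (g : G) (t : I) (x : X), H (t, g • x) = g • H (t, x)

/-- `X` and `Y` are `G`-homotopy equivalent. -/
def GHEquiv (G X Y : Type) [Group G] [TopologicalSpace X] [TopologicalSpace Y]
    [MulAction G X] [MulAction G Y] : Prop :=
  ∃ (f : C(X, Y)) (h : C(Y, X)), Equi G f ∧ Equi G h ∧
    GHomotopic G (h.comp f) (ContinuousMap.id X) ∧ GHomotopic G (f.comp h) (ContinuousMap.id Y)

/-- An orthogonal representation of `G` on `ℝ^(n+1)`: `G` acts by linear maps which preserve the
euclidean norm. -/
structure OrthRep (G : Type) [Group G] (n : ℕ) where
  /-- The action on vectors. -/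
  act : G → EuclideanSpace ℝ (Fin (n + 1)) → EuclideanSpace ℝ (Fin (n + 1))
  map_add : ∀ g v w, act g (v + w) = act g v + act g w
  map_smul : ∀ g (r : ℝ) v, act g (r • v) = r • act g v
  norm_map : ∀ g v, ‖act g v‖ = ‖v‖
  one_act : ∀ v, act 1 v = v
  mul_act : ∀ g h v, act (g * h) v = act g (act h v)

/-- The linear `G`-sphere `S(V)`: the unit sphere of the orthogonal representation `V`. -/
def LinSph {G : Type} [Group G] {n : ℕ} (_V : OrthRep G n) : Type := Sph n

/-- The topology of `S(V)` is the topology of the sphere. -/
instance instTopLinSph {G : Type} [Group G] {n : ℕ} (V : OrthRep G n) :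
    TopologicalSpace (LinSph V) :=
  (instTopologicalSpaceSubtype : TopologicalSpace (Sph n))

/-- The image of a point of `S(V)` under an element of `G`. -/
def OrthRep.move {G : Type} [Group G] {n : ℕ} (V : OrthRep G n) (g : G) (x : Sph n) : Sph n :=
  ⟨V.act g (x : EuclideanSpace ℝ (Fin (n + 1))), by simp [V.norm_map]⟩

/-- `G` acts on `S(V)` through `V`. -/
instance instActLinSph {G : Type} [Group G] {n : ℕ} (V : OrthRep G n) :
    MulAction G (LinSph V) where
  smul := V.move
  one_smul _ := Subtype.ext (V.one_act _)
  mul_smul g h _ := Subtype.ext (V.mul_act g h _)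

/-- (Used only in the proof.) A homomorphism to the linear isometries as an orthogonal
representation. -/
noncomputable def OrthRep.ofHom {G : Type} [Group G] {n : ℕ}
    (ρ : G →* (EuclideanSpace ℝ (Fin (n + 1)) ≃ₗᵢ[ℝ] EuclideanSpace ℝ (Fin (n + 1)))) :
    OrthRep G n where
  act g v := ρ g v
  map_add g v w := (ρ g).map_add v w
  map_smul g r v := (ρ g).map_smul r v
  norm_map g v := (ρ g).norm_map v
  one_act v := by rw [map_one]; rfl
  mul_act g h v := by rw [map_mul]; rfl

/-- (Used only in the proof.) An orthogonal representation as a homomorphism to the linear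
isometries. -/
noncomputable def OrthRep.toHom {G : Type} [Group G] {n : ℕ} (V : OrthRep G n) :
    G →* (EuclideanSpace ℝ (Fin (n + 1)) ≃ₗᵢ[ℝ] EuclideanSpace ℝ (Fin (n + 1))) where
  toFun g :=
    { toFun := V.act g
      map_add' := V.map_add g
      map_smul' := V.map_smul g
      invFun := V.act g⁻¹
      left_inv := fun v => by rw [← V.mul_act, inv_mul_cancel, V.one_act]
      right_inv := fun v => by rw [← V.mul_act, mul_inv_cancel, V.one_act]
      norm_map' := V.norm_map g }
  map_one' := by
    ext v : 1
    exact V.one_act v
  map_mul' g h := by
    ext v : 1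
    exact V.mul_act g h v

/-- For every prime `p` and every smooth action of the cyclic group of order `p` on `S^n` whose
fixed point set is nonempty and path connected, `S^n` is `C_p`-homotopy equivalent to a linear
`C_p`-sphere if and only if its (reduced) invariant topological complexity is at most `2`. -/
theorem result (p : ℕ) [Fact p.Prime] (n : ℕ) [MulAction (Cp p) (Sph n)]
    (hs : SmoothAction (Cp p) n)
    (hF : IsPathConnected (fixedSet (Cp p) (Sph n))) :
    (∃ V : OrthRep (Cp p) n, GHEquiv (Cp p) (Sph n) (LinSph V)) ↔
      ITC (Cp p) (Sph n) ≤ 2 := by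
  have key := Pool.Agent.TC.main_statement p n hs hF
  constructor
  · rintro ⟨V, f, k, hf, hk, H1, H2⟩
    exact key.1 ⟨V.toHom, f, k, hf, hk, H1, H2⟩
  · intro h
    obtain ⟨ρ, f, k, hf, hk, H1, H2⟩ := key.2 h
    exact ⟨OrthRep.ofHom ρ, f, k, hf, hk, H1, H2⟩

end Pool.Agent.Results.MP_3a3ae1_gt.LinearIffInvTC
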